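import Mathlib
import Pool.Agent.U462.Gap.Up

/-!
Empty windows of sequential random sets along a sequence of disjoint windows.
-/

set_option autoImplicit false
set_option linter.unusedSectionVars false

open MeasureTheory Filter Set
open scoped ENNReal Topology

namespace Pool.Agent.U215.Pw

open Pool.Agent.U462.Gap
open Pool.Agent.R528.RM (dens WV dens_meas lower_meas upper_meas WV_meas)

variable {Ω : Type} {m0 : MeasurableSpace Ω} {μ : Measure Ω} [IsProbabilityMeasure μ]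
  {ℱ : Filtration ℕ m0} {A : ℕ → Set Ω} {a : ℕ → ℝ}

/-- mass of the `n`-th window `(x n, x n + h n]` -/
noncomputable def mss (a : ℕ → ℝ) (x h : ℕ → ℕ) (n : ℕ) : ℝ := ∑ m ∈ Finset.Ioc (x n) (x n + h n), a m

open Classical in
/-- the number of the empty windows among the first `N` -/
noncomputable def vds (S : Set ℕ) (x h : ℕ → ℕ) (N : ℕ) : ℕ :=
  ((Finset.range N).filter (fun n => ∀ m, x n < m → m ≤ x n + h n → m ∉ S)).card

/-- probability of an empty window without violation -/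
lemma F_le (h : Model μ ℱ A a) (ha : ∀ n, 0 ≤ a n) (ha0 : Tendsto a atTop (𝓝 0)) (x hh : ℕ → ℕ)
    (hx : ∀ n, n ≤ x n) {δ : ℝ} (hδ : 0 < δ) (hδ1 : δ ≤ 1) : ∀ᶠ n : ℕ in atTop,
    μ.real (Em A (x n) (hh n) \ WV (VD μ ℱ A a δ) (x n) (hh n)) ≤ Real.exp (-((1 - δ) * mss a x hh n)) := by
  obtain ⟨V, hVd⟩ : ∃ V, V = VD μ ℱ A a δ := ⟨_, rfl⟩
  have hV : ∀ n, MeasurableSet[ℱ n] (V n) := fun n => by rw [hVd]; exact VD_meas δ n
  obtain ⟨n₁, hn₁⟩ := eventually_atTop.1 (ha0.eventually (eventually_le_nhds (show (0 : ℝ) < 1 by norm_num)))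
  filter_upwards [eventually_ge_atTop n₁] with n hn
  have hxn := hx n
  have h1 := E_le (μ := μ) h.adapted hV (fun m => (1 - δ) * a m) (x n) (B := univ) MeasurableSet.univ (hh n)
    (fun m h1 _ => by
      have := hn₁ (m + 1) (by omega)
      have h2 := ha (m + 1)
      nlinarith)
    (fun m h1 _ ω hω => by
      rw [hVd] at hω
      simp only [VD, mem_ofPred_eq, not_not] at hω
      have := (abs_le.1 hω).1
      linarith) (hh n) le_rfl
  rw [univ_inter, probReal_univ, mul_one, ← Finset.mul_sum] at h1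
  rw [← hVd]
  exact h1

/-- windows of mass `≥ α log n`, `α > 1`, are not empty -/
theorem nonempty_of (h : Model μ ℱ A a) (ha : ∀ n, 0 ≤ a n) (ha0 : Tendsto a atTop (𝓝 0)) (x hh : ℕ → ℕ)
    (hx : ∀ n, n ≤ x n) {α : ℝ} (hα : 1 < α) (hm : ∀ᶠ n : ℕ in atTop, α * Real.log n ≤ mss a x hh n) :
    ∀ᵐ ω ∂μ, ∀ᶠ n : ℕ in atTop, ∃ m, x n < m ∧ m ≤ x n + hh n ∧ ω ∈ A m := by
  obtain ⟨δ, hδd⟩ : ∃ δ, δ = (α - 1) / (2 * α) := ⟨_, rfl⟩
  have hα0 : 0 < α := by linarith
  have hδ : 0 < δ := by rw [hδd]; apply div_pos <;> linarith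
  have hδ1 : δ ≤ 1 := by rw [hδd, div_le_one (by linarith)]; linarith
  have hδα : (1 - δ) * α = (α + 1) / 2 := by rw [hδd]; field_simp; ring
  have hbc : ∀ᵐ ω ∂μ, ∀ᶠ n : ℕ in atTop, ω ∉ Em A (x n) (hh n) \ WV (VD μ ℱ A a δ) (x n) (hh n) := by
    refine bc (b := fun n : ℕ => 1 / (n : ℝ) ^ ((α + 1) / 2))
      (Real.summable_one_div_nat_rpow.2 (by linarith)) ?_
    filter_upwards [F_le h ha ha0 x hh hx hδ hδ1, hm, eventually_ge_atTop 1] with n h1 h2 h3
    refine h1.trans ?_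
    have hn : (0 : ℝ) < n := by exact_mod_cast h3
    rw [one_div, ← Real.rpow_neg hn.le, Real.rpow_def_of_pos hn]
    apply Real.exp_le_exp.2
    have h4 := mul_le_mul_of_nonneg_left h2 (show 0 ≤ 1 - δ by linarith)
    have h5 : (1 - δ) * (α * Real.log n) = (α + 1) / 2 * Real.log n := by rw [← mul_assoc, hδα]
    linarith
  filter_upwards [hbc, no_VD h hδ] with ω g1 g2
  obtain ⟨n₀, hn₀⟩ := g2
  filter_upwards [g1, eventually_ge_atTop n₀] with n h1 h2
  have hxn := hx n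
  have h3 : ω ∉ Em A (x n) (hh n) := by
    intro h4
    apply h1
    refine ⟨h4, ?_⟩
    rintro ⟨k, h5, _, h6⟩
    exact hn₀ k (by omega) h6
  simp only [Em, mem_ofPred_eq] at h3
  push Not at h3
  exact h3

/-- upper bound for the number of empty windows -/
theorem vds_up (h : Model μ ℱ A a) (ha : ∀ n, 0 ≤ a n) (ha0 : Tendsto a atTop (𝓝 0)) (x hh : ℕ → ℕ)
    (hx : ∀ n, n ≤ x n) {β : ℝ} (hβ0 : 0 ≤ β) (hβ1 : β ≤ 1)
    (hm : ∀ᶠ n : ℕ in atTop, β * Real.log n ≤ mss a x hh n) {ε : ℝ} (hε : 0 < ε) :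
    ∀ᵐ ω ∂μ, ∀ᶠ N : ℕ in atTop, (vds {n | ω ∈ A n} x hh N : ℝ) ≤ (N : ℝ) ^ (1 - β + ε) := by
  classical
  obtain ⟨δ, hδ, hδ1, hδε⟩ : ∃ δ : ℝ, 0 < δ ∧ δ ≤ 1 ∧ 3 * δ ≤ ε :=
    ⟨min 1 (ε / 3), lt_min one_pos (by positivity), min_le_left _ _, by
      have := min_le_right 1 (ε / 3); linarith⟩
  obtain ⟨F, hF⟩ : ∃ F : ℕ → Set Ω, F = fun n => Em A (x n) (hh n) \ WV (VD μ ℱ A a δ) (x n) (hh n) := ⟨_, rfl⟩
  have hFm : ∀ n, MeasurableSet (F n) := fun n => by
    rw [hF]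
    exact (ℱ.le _ _ (Em_meas h.adapted (x n) _)).diff (ℱ.le _ _ (WV_meas (fun n => VD_meas δ n) (x n) _))
  obtain ⟨γ, hγ⟩ : ∃ γ, γ = 1 - β + 2 * δ := ⟨_, rfl⟩
  have hγ0 : 0 < γ := by rw [hγ]; linarith
  -- the weighted sum of the indicators is finite
  have hFle : ∀ᶠ n : ℕ in atTop, μ.real (F n) * (n : ℝ) ^ (-γ) ≤ 1 / (n : ℝ) ^ (1 + δ) := by
    filter_upwards [F_le h ha ha0 x hh hx hδ hδ1, hm, eventually_ge_atTop 1] with n h1 h2 h3
    have hn1 : (1 : ℝ) ≤ n := by exact_mod_cast h3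
    have hn : (0 : ℝ) < n := by linarith
    have h4 : μ.real (F n) ≤ (n : ℝ) ^ (-β + δ) := by
      rw [hF]
      refine h1.trans ?_
      rw [Real.rpow_def_of_pos hn]
      apply Real.exp_le_exp.2
      have hl := Real.log_nonneg hn1
      have h4 := mul_le_mul_of_nonneg_left h2 (show 0 ≤ 1 - δ by linarith)
      have h5 : (1 - δ) * (β * Real.log n) = β * Real.log n - δ * (β * Real.log n) := by ring
      have h6 : δ * (β * Real.log n) ≤ δ * Real.log n :=
        mul_le_mul_of_nonneg_left (by nlinarith) hδ.le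
      linarith
    calc μ.real (F n) * (n : ℝ) ^ (-γ) ≤ (n : ℝ) ^ (-β + δ) * (n : ℝ) ^ (-γ) :=
          mul_le_mul_of_nonneg_right h4 (by positivity)
      _ = (n : ℝ) ^ (-(1 + δ)) := by
          rw [← Real.rpow_add hn]
          congr 1
          rw [hγ]
          ring
      _ = 1 / (n : ℝ) ^ (1 + δ) := by rw [Real.rpow_neg hn.le, one_div]
  have hsum : Summable (fun n : ℕ => μ.real (F n) * (n : ℝ) ^ (-γ)) := by
    refine Summable.of_norm_bounded_eventually_nat (Real.summable_one_div_nat_rpow.2 (by linarith : 1 < 1 + δ)) ?_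
    filter_upwards [hFle] with n hn
    rw [Real.norm_of_nonneg (by positivity)]
    exact hn
  have hfin : ∀ᵐ ω ∂μ, ∑' n : ℕ, (F n).indicator (fun _ => ENNReal.ofReal ((n : ℝ) ^ (-γ))) ω < ⊤ := by
    apply ae_lt_top
    · exact Measurable.ennreal_tsum fun n => measurable_const.indicator (hFm n)
    · rw [lintegral_tsum (fun n => (measurable_const.indicator (hFm n)).aemeasurable)]
      have e1 : ∀ n : ℕ, ∫⁻ ω, (F n).indicator (fun _ => ENNReal.ofReal ((n : ℝ) ^ (-γ))) ω ∂μ =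
          ENNReal.ofReal (μ.real (F n) * (n : ℝ) ^ (-γ)) := by
        intro n
        rw [lintegral_indicator_const (hFm n), mul_comm, ENNReal.ofReal_mul measureReal_nonneg,
          ofReal_measureReal (measure_ne_top _ _)]
      simp_rw [e1]
      rw [← ENNReal.ofReal_tsum_of_nonneg (fun n => by positivity) hsum]
      exact ENNReal.ofReal_ne_top
  filter_upwards [hfin, no_VD h hδ] with ω g1 g2
  obtain ⟨n₀, hn₀⟩ := g2
  obtain ⟨C, hC⟩ : ∃ C, C = (∑' n : ℕ, (F n).indicator (fun _ => ENNReal.ofReal ((n : ℝ) ^ (-γ))) ω).toReal := ⟨_, rfl⟩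
  have hC0 : 0 ≤ C := by rw [hC]; positivity
  -- finite sums
  have hfs : ∀ N : ℕ, ∑ n ∈ (Finset.range N).filter (fun n => ω ∈ F n), (n : ℝ) ^ (-γ) ≤ C := by
    intro N
    have h1 := ENNReal.sum_le_tsum (f := fun n : ℕ => (F n).indicator (fun _ => ENNReal.ofReal ((n : ℝ) ^ (-γ))) ω)
      ((Finset.range N).filter (fun n => ω ∈ F n))
    have h2 := ENNReal.toReal_mono g1.ne h1
    rw [← hC] at h2
    refine le_trans (le_of_eq ?_) h2
    rw [ENNReal.toReal_sum]
    · apply Finset.sum_congr rfl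
      intro n hn
      rw [Finset.mem_filter] at hn
      rw [Set.indicator_of_mem hn.2, ENNReal.toReal_ofReal (by positivity)]
    · intro n hn
      rw [Finset.mem_filter] at hn
      rw [Set.indicator_of_mem hn.2]
      exact ENNReal.ofReal_ne_top
  have hcount : ∀ N : ℕ, (((Finset.range N).filter (fun n => 1 ≤ n ∧ ω ∈ F n)).card : ℝ) ≤ C * (N : ℝ) ^ γ := by
    intro N
    have h1 : (((Finset.range N).filter (fun n => 1 ≤ n ∧ ω ∈ F n)).card : ℝ) * (N : ℝ) ^ (-γ) ≤ C := by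
      refine le_trans ?_ (hfs N)
      rw [← nsmul_eq_mul]
      have h2 : ((Finset.range N).filter (fun n => 1 ≤ n ∧ ω ∈ F n)).card • (N : ℝ) ^ (-γ) ≤
          ∑ n ∈ (Finset.range N).filter (fun n => 1 ≤ n ∧ ω ∈ F n), (n : ℝ) ^ (-γ) := by
        apply Finset.card_nsmul_le_sum
        intro n hn
        rw [Finset.mem_filter, Finset.mem_range] at hn
        have hn1 : (0 : ℝ) < n := by exact_mod_cast hn.2.1
        exact Real.rpow_le_rpow_of_nonpos hn1 (by exact_mod_cast hn.1.le) (by linarith)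
      refine h2.trans ?_
      apply Finset.sum_le_sum_of_subset_of_nonneg
      · intro n hn
        rw [Finset.mem_filter] at hn ⊢
        exact ⟨hn.1, hn.2.2⟩
      · intro n _ _
        positivity
    rcases Nat.eq_zero_or_pos N with hN | hN
    · rw [hN]
      simp
      positivity
    · have hN0 : (0 : ℝ) < N := by exact_mod_cast hN
      have h2 := mul_le_mul_of_nonneg_right h1 (show (0 : ℝ) ≤ (N : ℝ) ^ γ by positivity)
      rw [mul_assoc, ← Real.rpow_add hN0, neg_add_cancel, Real.rpow_zero, mul_one] at h2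
      exact h2
  have hgrow : ∀ᶠ N : ℕ in atTop, C + n₀ + 1 ≤ (N : ℝ) ^ δ :=
    ((tendsto_rpow_atTop hδ).comp tendsto_natCast_atTop_atTop).eventually_ge_atTop _
  filter_upwards [hgrow, eventually_ge_atTop 1] with N hN hN1
  have hN1' : (1 : ℝ) ≤ N := by exact_mod_cast hN1
  have hN0 : (0 : ℝ) < N := by linarith
  have hsub : (Finset.range N).filter (fun n => ∀ m, x n < m → m ≤ x n + hh n → m ∉ {n | ω ∈ A n}) ⊆
      Finset.range (n₀ + 1) ∪ (Finset.range N).filter (fun n => 1 ≤ n ∧ ω ∈ F n) := by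
    intro n hn
    rw [Finset.mem_filter] at hn
    rw [Finset.mem_union, Finset.mem_filter]
    by_cases hnn : n < n₀ + 1
    · exact Or.inl (Finset.mem_range.2 hnn)
    · right
      have hxn := hx n
      refine ⟨hn.1, by omega, ?_⟩
      rw [hF]
      refine ⟨hn.2, ?_⟩
      rintro ⟨k, h5, _, h6⟩
      exact hn₀ k (by omega) h6
  have h3 : (vds {n | ω ∈ A n} x hh N : ℝ) ≤ (n₀ + 1) + C * (N : ℝ) ^ γ := by
    have h4 := (Finset.card_le_card hsub).trans (Finset.card_union_le _ _)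
    rw [Finset.card_range] at h4
    have h5 : (vds {n | ω ∈ A n} x hh N : ℝ) ≤ ((n₀ + 1 +
        ((Finset.range N).filter (fun n => 1 ≤ n ∧ ω ∈ F n)).card : ℕ) : ℝ) := by
      apply Nat.cast_le.2
      unfold vds
      exact h4
    push_cast at h5
    linarith [hcount N]
  have h4 : (1 : ℝ) ≤ (N : ℝ) ^ γ := Real.one_le_rpow hN1' hγ0.le
  calc (vds {n | ω ∈ A n} x hh N : ℝ) ≤ (n₀ + 1) + C * (N : ℝ) ^ γ := h3
    _ ≤ (C + n₀ + 1) * (N : ℝ) ^ γ := by
        have h5 : (0 : ℝ) ≤ n₀ := Nat.cast_nonneg _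
        nlinarith
    _ ≤ (N : ℝ) ^ δ * (N : ℝ) ^ γ := mul_le_mul_of_nonneg_right hN (by positivity)
    _ = (N : ℝ) ^ (δ + γ) := by rw [← Real.rpow_add hN0]
    _ ≤ (N : ℝ) ^ (1 - β + ε) := by
        apply Real.rpow_le_rpow_of_exponent_le hN1'
        rw [hγ]
        linarith

end Pool.Agent.U215.Pw
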