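import Mathlib
import Pool.Agent.U215.Pw.Seq
import Pool.Agent.U462.Uni.Mgf

/-!
Large deviations for the number of elements of sequential random sets in a sequence of windows.
-/

set_option autoImplicit false
set_option linter.unusedSectionVars false

open MeasureTheory Filter Set
open scoped ENNReal Topology

namespace Pool.Agent.U215.Pw

open Pool.Agent.U462.Gap
open Pool.Agent.U462.Uni (ct tail)
open Pool.Agent.R528.RM (dens WV dens_meas lower_meas upper_meas WV_meas)

variable {Ω : Type} {m0 : MeasurableSpace Ω} {μ : Measure Ω} [IsProbabilityMeasure μ]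
  {ℱ : Filtration ℕ m0} {A : ℕ → Set Ω} {a : ℕ → ℝ}

/-- the rate function -/
noncomputable def rt (y : ℝ) : ℝ := 1 - y + y * Real.log y

/-- almost surely at least `y α log n` elements in the windows of mass `≥ (α - o(1)) log n` -/
theorem count_ge (h : Model μ ℱ A a) (ha : ∀ n, 0 ≤ a n) (ha0 : Tendsto a atTop (𝓝 0)) (x hh : ℕ → ℕ)
    (hx : ∀ n, n ≤ x n) {α : ℝ} (hα : 0 < α)
    (hm : ∀ η : ℝ, 0 < η → ∀ᶠ n : ℕ in atTop, (α - η) * Real.log n ≤ mss a x hh n)
    {y : ℝ} (hy : 0 < y) (hy1 : y < 1) (hr : 1 < α * rt y) :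
    ∀ᵐ ω ∂μ, ∀ᶠ n : ℕ in atTop, y * α * Real.log n ≤ ct A (x n) (hh n) ω := by
  -- choice of the parameters
  obtain ⟨e, he⟩ : ∃ e, e = α * rt y - 1 := ⟨_, rfl⟩
  have he0 : 0 < e := by rw [he]; linarith
  obtain ⟨δ, hδ, hδ1, hδα, hδe⟩ : ∃ δ : ℝ, 0 < δ ∧ δ ≤ 1 ∧ δ ≤ α ∧ δ * (α + 1) ≤ e / 2 := by
    refine ⟨min (min 1 α) (e / 2 / (α + 1)), lt_min (lt_min one_pos hα) (by positivity),
      (min_le_left _ _).trans (min_le_left _ _), (min_le_left _ _).trans (min_le_right _ _), ?_⟩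
    have h1 := min_le_right (min 1 α) (e / 2 / (α + 1))
    have h2 := mul_le_mul_of_nonneg_right h1 (show 0 ≤ α + 1 by linarith)
    rwa [div_mul_cancel₀ _ (by positivity : (α + 1) ≠ 0)] at h2
  obtain ⟨V, hVd⟩ : ∃ V, V = VD μ ℱ A a δ := ⟨_, rfl⟩
  have hV : ∀ n, MeasurableSet[ℱ n] (V n) := fun n => by rw [hVd]; exact VD_meas δ n
  obtain ⟨n₁, hn₁⟩ := eventually_atTop.1 (ha0.eventually (eventually_le_nhds (show (0 : ℝ) < 1 by norm_num)))
  have hly : Real.log y < 0 := Real.log_neg hy hy1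
  have hbc : ∀ᵐ ω ∂μ, ∀ᶠ n : ℕ in atTop,
      ω ∉ {ω | Real.log y * (y * α * Real.log n) ≤ Real.log y * ct A (x n) (hh n) ω} \ WV V (x n) (hh n) := by
    refine bc (b := fun n : ℕ => 1 / (n : ℝ) ^ (1 + e / 2))
      (Real.summable_one_div_nat_rpow.2 (by linarith)) ?_
    filter_upwards [eventually_ge_atTop (max n₁ 1), hm δ hδ] with n hn hmn
    have hn1 : n₁ ≤ n := (le_max_left _ _).trans hn
    have hn2 : 1 ≤ n := (le_max_right _ _).trans hn
    have hxn := hx n
    have hnr : (1 : ℝ) ≤ n := by exact_mod_cast hn2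
    have hn0 : (0 : ℝ) < n := by linarith
    have hl0 : 0 ≤ Real.log n := Real.log_nonneg hnr
    have h1 := tail (μ := μ) h.adapted hV (Real.log y) (Real.log y * (y * α * Real.log n))
      (fun m => (1 - δ) * a m) (x n) (hh n)
      (fun m h1 _ => by
        have h2 := hn₁ (m + 1) (by omega)
        have h3 := ha (m + 1)
        rw [Real.exp_log hy]
        have h4 : (1 - δ) * a (m + 1) ≤ 1 := by nlinarith
        have h5 : 0 ≤ (1 - δ) * a (m + 1) := mul_nonneg (by linarith) h3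
        nlinarith)
      (fun m h1 _ ω hω => by
        rw [hVd] at hω
        simp only [VD, mem_ofPred_eq, not_not] at hω
        have h2 := (abs_le.1 hω).1
        rw [Real.exp_log hy]
        apply mul_le_mul_of_nonpos_left _ (by linarith)
        linarith)
    rw [Real.exp_log hy, ← Finset.mul_sum] at h1
    refine h1.trans ?_
    rw [one_div, ← Real.rpow_neg hn0.le, Real.rpow_def_of_pos hn0 (-(1 + e / 2))]
    apply Real.exp_le_exp.2
    have h2 : (1 - δ) * ((α - δ) * Real.log n) ≤ (1 - δ) * mss a x hh n :=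
      mul_le_mul_of_nonneg_left hmn (by linarith)
    have h3 : (y - 1) * ((1 - δ) * mss a x hh n) ≤ (y - 1) * ((1 - δ) * ((α - δ) * Real.log n)) :=
      mul_le_mul_of_nonpos_left h2 (by linarith)
    have h4 : (α - δ * (α + 1)) * Real.log n ≤ (1 - δ) * ((α - δ) * Real.log n) := by
      have h5 : α - δ * (α + 1) ≤ (1 - δ) * (α - δ) := by nlinarith
      calc (α - δ * (α + 1)) * Real.log n ≤ ((1 - δ) * (α - δ)) * Real.log n :=
            mul_le_mul_of_nonneg_right h5 hl0
        _ = _ := by ring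
    have h5 : (y - 1) * ((1 - δ) * ((α - δ) * Real.log n)) ≤ (y - 1) * ((α - δ * (α + 1)) * Real.log n) :=
      mul_le_mul_of_nonpos_left h4 (by linarith)
    have h6 : (1 - y) * (δ * (α + 1)) ≤ e / 2 := by nlinarith
    have h7 : α * (1 - y + y * Real.log y) = e + 1 := by
      rw [he]; unfold rt; ring
    have h8 : -(Real.log y * (y * α * Real.log n)) + (y - 1) * ((α - δ * (α + 1)) * Real.log n) =
        (-(α * (1 - y + y * Real.log y)) + (1 - y) * (δ * (α + 1))) * Real.log n := by ring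
    have h9 : (-(α * (1 - y + y * Real.log y)) + (1 - y) * (δ * (α + 1))) * Real.log n ≤
        (-(1 + e / 2)) * Real.log n := by
      apply mul_le_mul_of_nonneg_right _ hl0
      rw [h7]
      linarith
    have h10 : (y - 1) * ((1 - δ) * ∑ i ∈ Finset.Ioc (x n) (x n + hh n), a i) =
        (y - 1) * ((1 - δ) * mss a x hh n) := rfl
    rw [h10]
    linarith
  filter_upwards [hbc, no_VD h hδ] with ω g1 g2
  obtain ⟨n₀, hn₀⟩ := g2
  filter_upwards [g1, eventually_ge_atTop n₀] with n h1 h2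
  have hxn := hx n
  by_contra hcon
  push Not at hcon
  apply h1
  refine ⟨?_, ?_⟩
  · rw [mem_ofPred_eq]
    exact mul_le_mul_of_nonpos_left hcon.le hly.le
  · rintro ⟨k, h5, _, h6⟩
    rw [hVd] at h6
    exact hn₀ k (by omega) h6

/-- almost surely at most `y α log n` elements in the windows of mass `≤ (α + o(1)) log n` -/
theorem count_le (h : Model μ ℱ A a) (ha : ∀ n, 0 ≤ a n) (x hh : ℕ → ℕ)
    (hx : ∀ n, n ≤ x n) {α : ℝ} (hα : 0 < α)
    (hm : ∀ η : ℝ, 0 < η → ∀ᶠ n : ℕ in atTop, mss a x hh n ≤ (α + η) * Real.log n)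
    {y : ℝ} (hy1 : 1 < y) (hr : 1 < α * rt y) :
    ∀ᵐ ω ∂μ, ∀ᶠ n : ℕ in atTop, ct A (x n) (hh n) ω ≤ y * α * Real.log n := by
  have hy : 0 < y := by linarith
  obtain ⟨e, he⟩ : ∃ e, e = α * rt y - 1 := ⟨_, rfl⟩
  have he0 : 0 < e := by rw [he]; linarith
  obtain ⟨δ, hδ, hδ1, hδe⟩ : ∃ δ : ℝ, 0 < δ ∧ δ ≤ 1 ∧ (y - 1) * (δ * (α + 2)) ≤ e / 2 := by
    have hy' : 0 < y - 1 := by linarith
    refine ⟨min 1 (e / 2 / ((y - 1) * (α + 2))), lt_min one_pos (by positivity), min_le_left _ _, ?_⟩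
    have h1 := min_le_right 1 (e / 2 / ((y - 1) * (α + 2)))
    have h2 := mul_le_mul_of_nonneg_right h1 (show 0 ≤ (y - 1) * (α + 2) by positivity)
    rw [div_mul_cancel₀ _ (by positivity : ((y - 1) * (α + 2)) ≠ 0)] at h2
    linarith
  obtain ⟨V, hVd⟩ : ∃ V, V = VD μ ℱ A a δ := ⟨_, rfl⟩
  have hV : ∀ n, MeasurableSet[ℱ n] (V n) := fun n => by rw [hVd]; exact VD_meas δ n
  have hly : 0 < Real.log y := Real.log_pos hy1
  have hbc : ∀ᵐ ω ∂μ, ∀ᶠ n : ℕ in atTop,
      ω ∉ {ω | Real.log y * (y * α * Real.log n) ≤ Real.log y * ct A (x n) (hh n) ω} \ WV V (x n) (hh n) := by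
    refine bc (b := fun n : ℕ => 1 / (n : ℝ) ^ (1 + e / 2))
      (Real.summable_one_div_nat_rpow.2 (by linarith)) ?_
    filter_upwards [eventually_ge_atTop 1, hm δ hδ] with n hn2 hmn
    have hnr : (1 : ℝ) ≤ n := by exact_mod_cast hn2
    have hn0 : (0 : ℝ) < n := by linarith
    have hl0 : 0 ≤ Real.log n := Real.log_nonneg hnr
    have h1 := tail (μ := μ) h.adapted hV (Real.log y) (Real.log y * (y * α * Real.log n))
      (fun m => (1 + δ) * a m) (x n) (hh n)
      (fun m h1 _ => by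
        have h3 := ha (m + 1)
        rw [Real.exp_log hy]
        have h5 : 0 ≤ (1 + δ) * a (m + 1) := by positivity
        have h6 : 0 ≤ (y - 1) * ((1 + δ) * a (m + 1)) := mul_nonneg (by linarith) h5
        linarith)
      (fun m h1 _ ω hω => by
        rw [hVd] at hω
        simp only [VD, mem_ofPred_eq, not_not] at hω
        have h2 := (abs_le.1 hω).2
        rw [Real.exp_log hy]
        apply mul_le_mul_of_nonneg_left _ (by linarith)
        linarith)
    rw [Real.exp_log hy, ← Finset.mul_sum] at h1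
    refine h1.trans ?_
    rw [one_div, ← Real.rpow_neg hn0.le, Real.rpow_def_of_pos hn0 (-(1 + e / 2))]
    apply Real.exp_le_exp.2
    have h2 : (1 + δ) * mss a x hh n ≤ (1 + δ) * ((α + δ) * Real.log n) :=
      mul_le_mul_of_nonneg_left hmn (by linarith)
    have h3 : (y - 1) * ((1 + δ) * mss a x hh n) ≤ (y - 1) * ((1 + δ) * ((α + δ) * Real.log n)) :=
      mul_le_mul_of_nonneg_left h2 (by linarith)
    have h4 : (1 + δ) * ((α + δ) * Real.log n) ≤ (α + δ * (α + 2)) * Real.log n := by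
      have h5 : (1 + δ) * (α + δ) ≤ α + δ * (α + 2) := by nlinarith
      calc (1 + δ) * ((α + δ) * Real.log n) = ((1 + δ) * (α + δ)) * Real.log n := by ring
        _ ≤ _ := mul_le_mul_of_nonneg_right h5 hl0
    have h5 : (y - 1) * ((1 + δ) * ((α + δ) * Real.log n)) ≤ (y - 1) * ((α + δ * (α + 2)) * Real.log n) :=
      mul_le_mul_of_nonneg_left h4 (by linarith)
    have h7 : α * (1 - y + y * Real.log y) = e + 1 := by
      rw [he]; unfold rt; ring
    have h8 : -(Real.log y * (y * α * Real.log n)) + (y - 1) * ((α + δ * (α + 2)) * Real.log n) =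
        (-(α * (1 - y + y * Real.log y)) + (y - 1) * (δ * (α + 2))) * Real.log n := by ring
    have h9 : (-(α * (1 - y + y * Real.log y)) + (y - 1) * (δ * (α + 2))) * Real.log n ≤
        (-(1 + e / 2)) * Real.log n := by
      apply mul_le_mul_of_nonneg_right _ hl0
      rw [h7]
      linarith
    have h10 : (y - 1) * ((1 + δ) * ∑ i ∈ Finset.Ioc (x n) (x n + hh n), a i) =
        (y - 1) * ((1 + δ) * mss a x hh n) := rfl
    rw [h10]
    linarith
  filter_upwards [hbc, no_VD h hδ] with ω g1 g2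
  obtain ⟨n₀, hn₀⟩ := g2
  filter_upwards [g1, eventually_ge_atTop n₀] with n h1 h2
  have hxn := hx n
  by_contra hcon
  push Not at hcon
  apply h1
  refine ⟨?_, ?_⟩
  · rw [mem_ofPred_eq]
    exact mul_le_mul_of_nonneg_left hcon.le hly.le
  · rintro ⟨k, h5, _, h6⟩
    rw [hVd] at h6
    exact hn₀ k (by omega) h6

end Pool.Agent.U215.Pw
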