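import Mathlib
import Pool.Agent.U215.Pw.Seq

/-!
Empty windows of sequential random sets along a sequence of disjoint windows: the lower bound for their
number.
-/

set_option autoImplicit false
set_option linter.unusedSectionVars false

open MeasureTheory Filter Set
open scoped ENNReal Topology

namespace Pool.Agent.U215.Pw

open Pool.Agent.U462.Gap
open Pool.Agent.R528.RM (dens WV dens_meas lower_meas upper_meas WV_meas)

variable {Ω : Type} {m0 : MeasurableSpace Ω} {μ : Measure Ω} [IsProbabilityMeasure μ]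
  {ℱ : Filtration ℕ m0} {A : ℕ → Set Ω} {a : ℕ → ℝ}

lemma G_ge (h : Model μ ℱ A a) (ha : ∀ n, 0 ≤ a n) (ha0 : Tendsto a atTop (𝓝 0)) (x hh : ℕ → ℕ)
    (hx : ∀ n, n ≤ x n) {δ : ℝ} (hδ : 0 < δ) (hδ1 : δ ≤ 1) : ∃ n₁ : ℕ, ∀ n, n₁ ≤ n →
    ∀ C, MeasurableSet[ℱ (x n)] C → Real.exp (-((1 + 2 * δ) * mss a x hh n)) * μ.real C ≤
      μ.real (C ∩ (Em A (x n) (hh n) ∪ WV (VD μ ℱ A a δ) (x n) (hh n))) := by
  obtain ⟨V, hVd⟩ : ∃ V, V = VD μ ℱ A a δ := ⟨_, rfl⟩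
  have hV : ∀ n, MeasurableSet[ℱ n] (V n) := fun n => by rw [hVd]; exact VD_meas δ n
  obtain ⟨n₁, hn₁⟩ := eventually_atTop.1 (ha0.eventually (eventually_le_nhds (show (0 : ℝ) < δ / 8 by positivity)))
  refine ⟨n₁, fun n hn C hC => ?_⟩
  have hxn := hx n
  have h1 := E_ge (μ := μ) h.adapted hV (fun m => (1 + δ) * a m) (x n) (B := C) hC (hh n)
    (fun m h1 _ => by
      have := hn₁ (m + 1) (by omega)
      have h2 := ha (m + 1)
      refine ⟨by positivity, ?_⟩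
      nlinarith)
    (fun m h1 _ ω hω => by
      rw [hVd] at hω
      simp only [VD, mem_ofPred_eq, not_not] at hω
      have := (abs_le.1 hω).2
      linarith) (hh n) le_rfl
  rw [← hVd]
  refine le_trans (mul_le_mul_of_nonneg_right (Real.exp_le_exp.2 ?_) measureReal_nonneg) h1
  rw [neg_le_neg_iff]
  unfold mss
  rw [Finset.mul_sum]
  apply Finset.sum_le_sum
  intro m hm
  rw [Finset.mem_Ioc] at hm
  have h2 := ha m
  have h3 := hn₁ m (by omega)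
  have h4 : 2 * ((1 + δ) * a m) ^ 2 ≤ δ * a m := by
    have h5 : (1 + δ) ^ 2 ≤ 4 := by nlinarith
    have h6 : 2 * ((1 + δ) * a m) ^ 2 = (2 * (1 + δ) ^ 2 * a m) * a m := by ring
    rw [h6]
    apply mul_le_mul_of_nonneg_right _ h2
    nlinarith
  linarith

/-- `exp (-c N ^ γ)` is eventually smaller than `1 / N ^ 2` -/
lemma exp_small {c γ : ℝ} (hc : 0 < c) (hγ : 0 < γ) :
    ∀ᶠ N : ℕ in atTop, Real.exp (-(c * (N : ℝ) ^ γ)) ≤ 1 / (N : ℝ) ^ (2 : ℝ) := by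
  have h1 := (isLittleO_log_rpow_atTop hγ).def (show (0 : ℝ) < c / 2 by positivity)
  filter_upwards [tendsto_natCast_atTop_atTop.eventually h1, eventually_ge_atTop 1] with N hN hN1
  have hN1' : (1 : ℝ) ≤ N := by exact_mod_cast hN1
  have hN0 : (0 : ℝ) < N := by linarith
  rw [Real.norm_of_nonneg (Real.log_nonneg hN1'), Real.norm_of_nonneg (by positivity)] at hN
  rw [one_div, ← Real.rpow_neg hN0.le, Real.rpow_def_of_pos hN0 (-2)]
  apply Real.exp_le_exp.2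
  linarith

/-- lower bound for the number of empty windows -/
theorem vds_low (h : Model μ ℱ A a) (ha : ∀ n, 0 ≤ a n) (ha0 : Tendsto a atTop (𝓝 0)) (x hh : ℕ → ℕ)
    (hx : ∀ n, n ≤ x n) (hxm : Monotone x) (hd : ∀ᶠ n : ℕ in atTop, x n + hh n ≤ x (n + 1))
    {β : ℝ} (hβ0 : 0 ≤ β) (hβ1 : β < 1)
    (hm : ∀ᶠ n : ℕ in atTop, mss a x hh n ≤ β * Real.log n) {ε : ℝ} (hε : 0 < ε) :
    ∀ᵐ ω ∂μ, ∀ᶠ N : ℕ in atTop, (N : ℝ) ^ (1 - β - ε) ≤ (vds {n | ω ∈ A n} x hh N : ℝ) := by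
  classical
  obtain ⟨η, hη, hη1, hηε⟩ : ∃ η : ℝ, 0 < η ∧ η ≤ 1 - β ∧ η ≤ ε :=
    ⟨min (1 - β) ε, lt_min (by linarith) hε, min_le_left _ _, min_le_right _ _⟩
  obtain ⟨δ, hδ, hδ1, hδε⟩ : ∃ δ : ℝ, 0 < δ ∧ δ ≤ 1 ∧ 2 * δ ≤ η / 2 :=
    ⟨min 1 (η / 4), lt_min one_pos (by positivity), min_le_left _ _, by
      have := min_le_right 1 (η / 4); linarith⟩
  obtain ⟨γ, hγ⟩ : ∃ γ, γ = 1 - β - η / 2 := ⟨_, rfl⟩
  have hγ0 : 0 < γ := by rw [hγ]; linarith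
  obtain ⟨κ, hκd⟩ : ∃ κ, κ = 1 - Real.exp (-1) := ⟨_, rfl⟩
  have hκ : 0 < κ := by
    have : Real.exp (-1) < 1 := Real.exp_lt_one_iff.2 (by norm_num)
    rw [hκd]; linarith
  obtain ⟨n₁, hG⟩ := G_ge h ha ha0 x hh hx hδ hδ1
  obtain ⟨n₂, hn₂⟩ := eventually_atTop.1 hm
  obtain ⟨n₄, hn₄⟩ := eventually_atTop.1 hd
  obtain ⟨n₃, hn₃⟩ : ∃ n₃, n₃ = max n₁ (max n₂ n₄) + 1 := ⟨_, rfl⟩
  have hn31 : n₁ ≤ n₃ := by rw [hn₃]; omega
  have hn32 : n₂ ≤ n₃ := by rw [hn₃]; omega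
  have hn33 : 1 ≤ n₃ := by rw [hn₃]; omega
  have hn34 : n₄ ≤ n₃ := by rw [hn₃]; omega
  obtain ⟨D, hD⟩ : ∃ D : ℕ → Set Ω, D = fun n => Em A (x n) (hh n) ∪ WV (VD μ ℱ A a δ) (x n) (hh n) := ⟨_, rfl⟩
  obtain ⟨p, hp⟩ : ∃ p : ℕ → ℝ, p = fun n => Real.exp (-((1 + 2 * δ) * mss a x hh n)) := ⟨_, rfl⟩
  have hDm : ∀ m, n₃ ≤ m → MeasurableSet[ℱ (x (m + 1))] (D m) := by
    intro m hm3
    rw [hD]
    exact ℱ.mono (hn₄ m (hn34.trans hm3)) _ (MeasurableSet.union (Em_meas h.adapted (x m) _)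
      (WV_meas (fun n => VD_meas δ n) (x m) _))
  -- the probabilities
  have hpl : ∀ N : ℕ, ∀ m, n₃ ≤ m → m < N → (N : ℝ) ^ (-(β + η / 2)) ≤ p m := by
    intro N m h1 h2
    have hm1 : (1 : ℝ) ≤ m := by exact_mod_cast (hn33.trans h1)
    have hm0 : (0 : ℝ) < m := by linarith
    have hmN : (m : ℝ) ≤ N := by exact_mod_cast h2.le
    have hN0 : (0 : ℝ) < N := by linarith
    have h3 := hn₂ m (hn32.trans h1)
    rw [hp, Real.rpow_def_of_pos hN0]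
    apply Real.exp_le_exp.2
    have hl : 0 ≤ Real.log m := Real.log_nonneg hm1
    have hlN : Real.log m ≤ Real.log N := Real.log_le_log hm0 hmN
    have h4 : (1 + 2 * δ) * mss a x hh m ≤ (1 + 2 * δ) * (β * Real.log m) :=
      mul_le_mul_of_nonneg_left h3 (by positivity)
    have h5 : (1 + 2 * δ) * (β * Real.log m) ≤ (β + η / 2) * Real.log m := by
      have h6 : (1 + 2 * δ) * β ≤ β + η / 2 := by nlinarith
      calc (1 + 2 * δ) * (β * Real.log m) = ((1 + 2 * δ) * β) * Real.log m := by ring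
        _ ≤ _ := mul_le_mul_of_nonneg_right h6 hl
    have h6 : (β + η / 2) * Real.log m ≤ (β + η / 2) * Real.log N :=
      mul_le_mul_of_nonneg_left hlN (by positivity)
    linarith
  have hsum : ∀ N : ℕ, 2 * n₃ ≤ N → (N : ℝ) ^ γ / 2 ≤ ∑ m ∈ Finset.Ico n₃ N, p m := by
    intro N hN
    have hN1 : 1 ≤ N := by omega
    have hN0 : (0 : ℝ) < N := by exact_mod_cast hN1
    have h1 : (Finset.Ico n₃ N).card • (N : ℝ) ^ (-(β + η / 2)) ≤ ∑ m ∈ Finset.Ico n₃ N, p m := by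
      apply Finset.card_nsmul_le_sum
      intro m hm
      rw [Finset.mem_Ico] at hm
      exact hpl N m hm.1 hm.2
    refine le_trans ?_ h1
    rw [Nat.card_Ico, nsmul_eq_mul]
    have h2 : (N : ℝ) / 2 ≤ ((N - n₃ : ℕ) : ℝ) := by
      rw [Nat.cast_sub (by omega)]
      have : (2 : ℝ) * n₃ ≤ N := by exact_mod_cast hN
      linarith
    have h3 : (N : ℝ) ^ γ = N * (N : ℝ) ^ (-(β + η / 2)) := by
      nth_rewrite 2 [← Real.rpow_one (N : ℝ)]
      rw [← Real.rpow_add hN0, hγ]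
      congr 1
      ring
    rw [h3]
    calc (N : ℝ) * (N : ℝ) ^ (-(β + η / 2)) / 2 = (N : ℝ) / 2 * (N : ℝ) ^ (-(β + η / 2)) := by ring
      _ ≤ _ := mul_le_mul_of_nonneg_right h2 (by positivity)
  have hbc : ∀ᵐ ω ∂μ, ∀ᶠ N : ℕ in atTop, ω ∉ {ω | cs D n₃ (N - n₃) ω ≤ ⌊κ * (N : ℝ) ^ γ / 4⌋₊} := by
    refine bc (b := fun N : ℕ => 1 / (N : ℝ) ^ (2 : ℝ)) (Real.summable_one_div_nat_rpow.2 (by norm_num)) ?_
    filter_upwards [exp_small (show 0 < κ / 4 by positivity) hγ0, eventually_ge_atTop (2 * n₃)] with N h1 h2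
    have htail := low_tail (μ := μ) D x hxm p (N - n₃) n₃ (fun m h3 _ => hDm m h3)
      (fun m h3 _ C hC => by
        rw [hD, hp]
        exact hG m (hn31.trans h3) C hC) univ MeasurableSet.univ ⌊κ * (N : ℝ) ^ γ / 4⌋₊
    rw [univ_inter, probReal_univ, mul_one, ← hκd] at htail
    have e : n₃ + (N - n₃) = N := by omega
    rw [e] at htail
    refine htail.trans (le_trans (Real.exp_le_exp.2 ?_) h1)
    have h3 := Nat.floor_le (show 0 ≤ κ * (N : ℝ) ^ γ / 4 by positivity)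
    have h4 := mul_le_mul_of_nonneg_left (hsum N h2) hκ.le
    linarith
  filter_upwards [hbc, no_VD h hδ] with ω g1 g2
  obtain ⟨n₀, hn₀⟩ := g2
  have hgrow : ∀ᶠ N : ℕ in atTop, 4 * (n₀ + 1) / κ ≤ (N : ℝ) ^ (η / 2) :=
    ((tendsto_rpow_atTop (by positivity)).comp tendsto_natCast_atTop_atTop).eventually_ge_atTop _
  filter_upwards [g1, hgrow, eventually_ge_atTop (2 * n₃)] with N h1 h2 h3
  have hN1 : 1 ≤ N := by omega
  have hN1' : (1 : ℝ) ≤ N := by exact_mod_cast hN1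
  have hN0 : (0 : ℝ) < N := by linarith
  have h4 : ⌊κ * (N : ℝ) ^ γ / 4⌋₊ < cs D n₃ (N - n₃) ω := by
    by_contra hcon
    exact h1 (not_lt.1 hcon)
  have h5 : cs D n₃ (N - n₃) ω ≤ n₀ + vds {n | ω ∈ A n} x hh N := by
    have e1 : cs D n₃ (N - n₃) ω = ((Finset.Ico n₃ N).filter (fun n => ω ∈ D n)).card := by
      unfold cs
      rw [Finset.card_filter, Finset.sum_Ico_eq_sum_range]
    rw [e1]
    have hsub : (Finset.Ico n₃ N).filter (fun n => ω ∈ D n) ⊆ Finset.range n₀ ∪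
        (Finset.range N).filter (fun n => ∀ m, x n < m → m ≤ x n + hh n → m ∉ {n | ω ∈ A n}) := by
      intro n hn
      rw [Finset.mem_filter, Finset.mem_Ico] at hn
      rw [Finset.mem_union, Finset.mem_filter, Finset.mem_range, Finset.mem_range]
      by_cases hnn : n < n₀
      · exact Or.inl hnn
      · right
        refine ⟨hn.1.2, ?_⟩
        have h6 := hn.2
        rw [hD] at h6
        have hxn := hx n
        rcases h6 with h6 | ⟨k, h7, _, h8⟩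
        · exact h6
        · exact absurd h8 (hn₀ k (by omega))
    have h6 := (Finset.card_le_card hsub).trans (Finset.card_union_le _ _)
    rw [Finset.card_range] at h6
    exact h6
  have h6 : κ * (N : ℝ) ^ γ / 4 ≤ n₀ + vds {n | ω ∈ A n} x hh N := by
    have h7 := Nat.lt_floor_add_one (κ * (N : ℝ) ^ γ / 4)
    have h8 : ((⌊κ * (N : ℝ) ^ γ / 4⌋₊ + 1 : ℕ) : ℝ) ≤ ((n₀ + vds {n | ω ∈ A n} x hh N : ℕ) : ℝ) :=
      Nat.cast_le.2 (h4.trans_le h5)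
    push_cast at h8
    linarith
  have h7 : (N : ℝ) ^ γ = (N : ℝ) ^ (1 - β - η) * (N : ℝ) ^ (η / 2) := by
    rw [← Real.rpow_add hN0, hγ]
    congr 1
    ring
  have h8 : (1 : ℝ) ≤ (N : ℝ) ^ (1 - β - η) := Real.one_le_rpow hN1' (by linarith)
  have h9 : (n₀ + 1) * (N : ℝ) ^ (1 - β - η) ≤ κ * (N : ℝ) ^ γ / 4 := by
    rw [h7]
    rw [div_le_iff₀ hκ] at h2
    have h10 := mul_le_mul_of_nonneg_right h2 (show 0 ≤ (N : ℝ) ^ (1 - β - η) by positivity)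
    linarith
  have h10 : (N : ℝ) ^ (1 - β - ε) ≤ (N : ℝ) ^ (1 - β - η) :=
    Real.rpow_le_rpow_of_exponent_le hN1' (by linarith)
  have h11 : (0 : ℝ) ≤ n₀ := Nat.cast_nonneg _
  nlinarith

end Pool.Agent.U215.Pw
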