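import Mathlib
import Pool.Agent.Helper601.PNT

/-!
The `n`-th prime is asymptotic to `n log n`.
-/

set_option autoImplicit false

open Filter Topology

namespace Pool.Agent.U215.Pw

/-- the `n`-th prime, `pr 1 = 2` -/
noncomputable def pr (n : ℕ) : ℕ := Nat.nth Nat.Prime (n - 1)

lemma pr_tendsto : Tendsto (fun n : ℕ => pr n) atTop atTop :=
  (Nat.nth_strictMono Nat.infinite_setOfPred_prime).tendsto_atTop.comp (tendsto_sub_atTop_nat 1)

lemma counting_pr (n : ℕ) (hn : 1 ≤ n) : Nat.primeCounting (pr n) = n := by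
  unfold pr Nat.primeCounting Nat.primeCounting'
  rw [Nat.count_succ, if_pos (Nat.prime_nth_prime _), Nat.count_nth_of_infinite Nat.infinite_setOfPred_prime]
  omega

theorem pr_asymp : Tendsto (fun n : ℕ => (pr n : ℝ) / (n * Real.log n)) atTop (𝓝 1) := by
  have hp : Tendsto (fun n : ℕ => (pr n : ℝ)) atTop atTop := tendsto_natCast_atTop_atTop.comp pr_tendsto
  have h1 := Pool.Agent.Helper601.PNT.pi_tendsto.comp hp
  have hA : Tendsto (fun n : ℕ => (n : ℝ) * Real.log (pr n) / pr n) atTop (𝓝 1) := by
    refine h1.congr' ?_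
    filter_upwards [eventually_ge_atTop 1] with n hn
    simp only [Function.comp, Nat.floor_natCast]
    rw [counting_pr n hn]
  have hL : Tendsto (fun n : ℕ => Real.log (pr n)) atTop atTop := Real.tendsto_log_atTop.comp hp
  have hlogA : Tendsto (fun n : ℕ => Real.log ((n : ℝ) * Real.log (pr n) / pr n)) atTop (𝓝 0) := by
    have := (Real.continuousAt_log one_ne_zero).tendsto.comp hA
    rwa [Real.log_one] at this
  have hLL : Tendsto (fun n : ℕ => Real.log (Real.log (pr n)) / Real.log (pr n)) atTop (𝓝 0) := by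
    have h2 : Tendsto (fun x : ℝ => Real.log x / x) atTop (𝓝 0) := by
      have := Real.isLittleO_log_id_atTop.tendsto_div_nhds_zero
      simpa using this
    exact h2.comp hL
  have hq : Tendsto (fun n : ℕ => Real.log n / Real.log (pr n)) atTop (𝓝 1) := by
    have h3 : Tendsto (fun n : ℕ => Real.log ((n : ℝ) * Real.log (pr n) / pr n) / Real.log (pr n) + 1 -
        Real.log (Real.log (pr n)) / Real.log (pr n)) atTop (𝓝 (0 + 1 - 0)) :=
      ((hlogA.div_atTop hL).add_const 1).sub hLL
    rw [zero_add, sub_zero] at h3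
    refine h3.congr' ?_
    filter_upwards [hL.eventually_gt_atTop 1, eventually_ge_atTop 1, hp.eventually_gt_atTop 0] with n g1 g2 g3
    have hn : (0 : ℝ) < n := by exact_mod_cast g2
    have hl0 : 0 < Real.log (pr n) := by linarith
    rw [Real.log_div (by positivity) g3.ne', Real.log_mul hn.ne' hl0.ne']
    field_simp
    ring
  have h4 := (hA.inv₀ one_ne_zero).mul (hq.inv₀ one_ne_zero)
  rw [inv_one, one_mul] at h4
  refine h4.congr' ?_
  filter_upwards [hL.eventually_gt_atTop 1, eventually_ge_atTop 2, hp.eventually_gt_atTop 0] with n g1 g2 g3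
  have hn : (1 : ℝ) < n := by exact_mod_cast g2
  have hl0 : 0 < Real.log (pr n) := by linarith
  have hln : 0 < Real.log n := Real.log_pos hn
  field_simp

end Pool.Agent.U215.Pw
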