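import Mathlib
import Pool.Agent.U215.Pw.Nth
import Pool.Agent.U215.Pw.Seq
import Pool.Agent.U462.Gap.Sieve2

/-!
The mass of the windows `[b ^ n, b ^ n + κ p_n]` for sieved profiles.
-/

set_option autoImplicit false
set_option linter.unusedSectionVars false

open MeasureTheory Filter Set
open scoped ENNReal Topology

namespace Pool.Agent.U215.Pw

open Pool.Agent.U462.Gap

/-- left end of the windows -/
def xx (b : ℕ) (n : ℕ) : ℕ := b ^ n - 1

/-- length of the windows -/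
noncomputable def hhh (κ : ℝ) (n : ℕ) : ℕ := ⌊κ * pr n⌋₊ + 1

lemma hhh_asymp {κ : ℝ} (hκ : 0 < κ) :
    Tendsto (fun n : ℕ => (hhh κ n : ℝ) / (n * Real.log n)) atTop (𝓝 κ) := by
  have h1 : Tendsto (fun n : ℕ => κ * ((pr n : ℝ) / (n * Real.log n))) atTop (𝓝 κ) := by
    have := pr_asymp.const_mul κ
    rwa [mul_one] at this
  have h2 : Tendsto (fun n : ℕ => (n : ℝ) * Real.log n) atTop atTop :=
    tendsto_natCast_atTop_atTop.atTop_mul_atTop₀ tlog
  have h3 : Tendsto (fun n : ℕ => κ * ((pr n : ℝ) / (n * Real.log n)) + 1 / ((n : ℝ) * Real.log n)) atTop (𝓝 κ) := by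
    have h4 : Tendsto (fun n : ℕ => 1 / ((n : ℝ) * Real.log n)) atTop (𝓝 0) := by
      simp_rw [one_div]
      exact tendsto_inv_atTop_zero.comp h2
    have := h1.add h4
    rwa [add_zero] at this
  refine tendsto_of_tendsto_of_tendsto_of_le_of_le' h1 h3 ?_ ?_
  · filter_upwards [h2.eventually_gt_atTop 0] with n hn
    rw [← mul_div_assoc]
    apply div_le_div_of_nonneg_right _ hn.le
    have := (Nat.lt_floor_add_one (κ * (pr n : ℝ))).le
    unfold hhh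
    push_cast
    exact this
  · filter_upwards [h2.eventually_gt_atTop 0] with n hn
    rw [← mul_div_assoc, ← add_div]
    apply div_le_div_of_nonneg_right _ hn.le
    have := Nat.floor_le (show 0 ≤ κ * (pr n : ℝ) by positivity)
    unfold hhh
    push_cast
    linarith

lemma pow_big {b : ℕ} (hb : 2 ≤ b) : ∀ᶠ n : ℕ in atTop, (n : ℝ) ^ 2 ≤ (b : ℝ) ^ n := by
  have hb' : (1 : ℝ) < b := by exact_mod_cast hb
  have h3 : Tendsto (fun k : ℕ => (k : ℝ) ^ 2 / (b : ℝ) ^ k) atTop (𝓝 0) :=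
    tendsto_pow_const_div_const_pow_of_one_lt 2 hb'
  filter_upwards [h3.eventually (eventually_le_nhds (show (0 : ℝ) < 1 by norm_num))] with i hi
  rw [div_le_iff₀ (by positivity)] at hi
  linarith

/-- the windows are short -/
lemma hhh_le {b : ℕ} (hb : 2 ≤ b) {κ : ℝ} (hκ : 0 < κ) : ∀ᶠ n : ℕ in atTop, hhh κ n ≤ b ^ n - 1 := by
  have h1 := (hhh_asymp hκ).eventually (gt_mem_nhds (show κ < κ + 1 by linarith))
  have h2 := (Real.isLittleO_log_id_atTop).def (show (0 : ℝ) < 1 / (2 * (κ + 1)) by positivity)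
  filter_upwards [h1, tendsto_natCast_atTop_atTop.eventually h2, pow_big hb, eventually_ge_atTop 3] with n g1 g2 g3 g4
  have hn : (3 : ℝ) ≤ n := by exact_mod_cast g4
  have hl : 0 < Real.log n := Real.log_pos (by linarith)
  rw [div_lt_iff₀ (by positivity)] at g1
  rw [Real.norm_of_nonneg hl.le, id, Real.norm_of_nonneg (by positivity)] at g2
  have h3 : (κ + 1) * ((n : ℝ) * Real.log n) ≤ (n : ℝ) ^ 2 / 2 := by
    have h4 : (κ + 1) * ((n : ℝ) * Real.log n) ≤ (κ + 1) * ((n : ℝ) * (1 / (2 * (κ + 1)) * n)) :=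
      mul_le_mul_of_nonneg_left (mul_le_mul_of_nonneg_left g2 (by positivity)) (by positivity)
    have h5 : (κ + 1) * ((n : ℝ) * (1 / (2 * (κ + 1)) * n)) = (n : ℝ) ^ 2 / 2 := by field_simp
    linarith
  have h6 : ((hhh κ n : ℕ) : ℝ) + 1 ≤ ((b ^ n : ℕ) : ℝ) := by
    push_cast
    nlinarith
  have h7 : hhh κ n + 1 ≤ b ^ n := by exact_mod_cast h6
  omega

lemma xx_ge {b : ℕ} (hb : 2 ≤ b) (n : ℕ) : n ≤ xx b n := by
  unfold xx
  have := Nat.lt_pow_self (n := n) (show 1 < b by omega)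
  omega

lemma xx_mono {b : ℕ} (hb : 2 ≤ b) : Monotone (xx b) := by
  intro m n hmn
  unfold xx
  have := Nat.pow_le_pow_right (show 0 < b by omega) hmn
  omega

lemma xx_disj {b : ℕ} (hb : 2 ≤ b) {κ : ℝ} (hκ : 0 < κ) :
    ∀ᶠ n : ℕ in atTop, xx b n + hhh κ n ≤ xx b (n + 1) := by
  filter_upwards [hhh_le hb hκ] with n hn
  unfold xx
  have h1 : b ^ (n + 1) = b ^ n * b := pow_succ b n
  have h2 : b ^ n * 2 ≤ b ^ n * b := Nat.mul_le_mul_left _ hb
  omega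

variable {T : ℕ → ℕ}

lemma mass_bounds (hT : Monotone T)
    (hTl : ∀ θ : ℝ, 0 < θ → ∀ᶠ n : ℕ in atTop, (T n : ℝ) ≤ (Real.log n) ^ θ)
    {b : ℕ} (hb : 2 ≤ b) {κ : ℝ} (hκ : 0 < κ) {δ : ℝ} (hδ : 0 < δ) (hδ1 : δ ≤ 1 / 4) :
    ∀ᶠ n : ℕ in atTop, (1 - 4 * δ) * (hhh κ n / (n * Real.log b)) ≤ mss (aT T) (xx b) (hhh κ) n ∧
      mss (aT T) (xx b) (hhh κ) n ≤ (1 + 2 * δ) * (hhh κ n / (n * Real.log b)) := by
  obtain ⟨R, hR, hRδ⟩ := exists_R δ hδ
  obtain ⟨D, hD⟩ : ∃ D : ℕ, D = 8 * R + 18 := ⟨_, rfl⟩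
  have hD0 : (0 : ℝ) < D := by rw [hD]; positivity
  have hbr : (2 : ℝ) ≤ b := by exact_mod_cast hb
  obtain ⟨ℓ, hℓ⟩ : ∃ ℓ, ℓ = Real.log b := ⟨_, rfl⟩
  have hℓ0 : 0 < ℓ := by rw [hℓ]; exact Real.log_pos (by linarith)
  have hp2 : Tendsto (fun n : ℕ => 2 * b ^ n) atTop atTop :=
    (tendsto_pow_atTop_atTop_of_one_lt (show 1 < b by omega)).const_mul_atTop' (by norm_num)
  have hr := (hhh_asymp hκ).eventually (lt_mem_nhds (show κ / 2 < κ by linarith))
  filter_upwards [hp2.eventually (hTl (1 / D) (by positivity)), hhh_le hb hκ, hr,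
    tlog.eventually_ge_atTop (2 / κ * (3 ^ D * (2 * ℓ + 2) / δ)), tlog.eventually_ge_atTop 1,
    tendsto_natCast_atTop_atTop.eventually_ge_atTop (1 / (δ * ℓ)), eventually_ge_atTop 2]
    with n g1 g2 g3 g4 g4' g5 g6
  rw [← hℓ]
  have hnr : (2 : ℝ) ≤ n := by exact_mod_cast g6
  have hn0 : (0 : ℝ) < n := by linarith
  have hbn1 : 1 ≤ b ^ n := Nat.one_le_pow _ _ (by omega)
  have hbn : (0 : ℝ) < (b : ℝ) ^ n := by positivity
  obtain ⟨K, hK⟩ : ∃ K, K = hhh κ n := ⟨_, rfl⟩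
  rw [← hK] at g2 g3 ⊢
  have h1 := sum_window R hR T hT (xx b n) K (T (2 * b ^ n)) (hT (by unfold xx; omega))
  rw [← hD] at h1
  have hlog2 : Real.log ((2 * b ^ n : ℕ) : ℝ) = Real.log 2 + n * ℓ := by
    push_cast
    rw [Real.log_mul (by norm_num) (by positivity), Real.log_pow, hℓ]
  have hl2 : Real.log 2 ≤ 1 := by
    have := Real.log_two_lt_d9; linarith
  have hl2' : 0 < Real.log 2 := Real.log_pos (by norm_num)
  have hL1 : 1 ≤ Real.log ((2 * b ^ n : ℕ) : ℝ) := by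
    rw [hlog2]
    have h3 : Real.log 2 ≤ ℓ := by rw [hℓ]; exact Real.log_le_log (by norm_num) hbr
    have h4 : 2 * Real.log 2 ≤ n * ℓ := mul_le_mul hnr h3 hl2'.le (by linarith)
    have := Real.log_two_gt_d9
    linarith
  -- the error term
  have h2 : ((T (2 * b ^ n) : ℝ) + 2) ^ D ≤ 3 ^ D * ((2 * ℓ + 2) * n) := by
    have h4 : (1 : ℝ) ≤ (Real.log ((2 * b ^ n : ℕ) : ℝ)) ^ (1 / (D : ℝ)) :=
      Real.one_le_rpow hL1 (by positivity)
    calc ((T (2 * b ^ n) : ℝ) + 2) ^ D ≤ (3 * (Real.log ((2 * b ^ n : ℕ) : ℝ)) ^ (1 / (D : ℝ))) ^ D := by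
          apply pow_le_pow_left₀ (by positivity)
          linarith
      _ = 3 ^ D * Real.log ((2 * b ^ n : ℕ) : ℝ) := by
          rw [mul_pow, ← Real.rpow_natCast ((Real.log ((2 * b ^ n : ℕ) : ℝ)) ^ (1 / (D : ℝ))) D,
            ← Real.rpow_mul (by linarith), one_div, inv_mul_cancel₀ hD0.ne', Real.rpow_one]
      _ ≤ 3 ^ D * ((2 * ℓ + 2) * n) := by
          apply mul_le_mul_of_nonneg_left _ (by positivity)
          rw [hlog2]
          nlinarith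
  have hKlow : κ / 2 * (n * Real.log n) ≤ K := by
    rw [lt_div_iff₀ (by positivity)] at g3
    exact g3.le
  have h3 : 3 ^ D * ((2 * ℓ + 2) * n) ≤ δ * K := by
    have h4 : 3 ^ D * (2 * ℓ + 2) ≤ δ * (κ / 2) * Real.log n := by
      have h5 := mul_le_mul_of_nonneg_left g4 (show 0 ≤ δ * (κ / 2) by positivity)
      have h6 : δ * (κ / 2) * (2 / κ * (3 ^ D * (2 * ℓ + 2) / δ)) = 3 ^ D * (2 * ℓ + 2) := by field_simp
      linarith
    calc 3 ^ D * ((2 * ℓ + 2) * n) = (3 ^ D * (2 * ℓ + 2)) * n := by ring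
      _ ≤ (δ * (κ / 2) * Real.log n) * n := mul_le_mul_of_nonneg_right h4 hn0.le
      _ = δ * (κ / 2 * (n * Real.log n)) := by ring
      _ ≤ δ * K := mul_le_mul_of_nonneg_left hKlow hδ.le
  have h4 : (2 : ℝ) ^ 25 * (1 / 2) ^ (2 * R) * K ≤ δ * K :=
    mul_le_mul_of_nonneg_right hRδ (Nat.cast_nonneg K)
  rw [abs_le] at h1
  obtain ⟨Sg, hSg⟩ : ∃ Sg, Sg = ∑ m ∈ Finset.Ioc (xx b n) (xx b n + K), fT T m := ⟨_, rfl⟩
  rw [← hSg] at h1
  have hup : Sg ≤ (1 + 2 * δ) * K := by linarith [h1.2]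
  have hlo : (1 - 2 * δ) * K ≤ Sg := by linarith [h1.1]
  have hlogs : ∀ m ∈ Finset.Ioc (xx b n) (xx b n + K), n * ℓ ≤ Real.log m ∧ Real.log m ≤ n * ℓ + 1 := by
    intro m hm
    rw [Finset.mem_Ioc] at hm
    unfold xx at hm
    have hm1 : b ^ n ≤ m := by omega
    have hm2 : m ≤ 2 * b ^ n := by omega
    constructor
    · rw [hℓ, ← Real.log_pow]
      exact Real.log_le_log hbn (by exact_mod_cast hm1)
    · have h5 : Real.log m ≤ Real.log ((2 * b ^ n : ℕ) : ℝ) := by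
        apply Real.log_le_log
        · exact_mod_cast lt_of_lt_of_le hbn1 hm1
        · exact_mod_cast hm2
      rw [hlog2] at h5
      linarith
  have hnℓ : 0 < n * ℓ := by positivity
  have hK0 : (0 : ℝ) ≤ K := Nat.cast_nonneg K
  constructor
  · have h5 : Sg / (n * ℓ + 1) ≤ mss (aT T) (xx b) (hhh κ) n := by
      unfold mss
      rw [← hK, hSg, Finset.sum_div]
      apply Finset.sum_le_sum
      intro m hm
      obtain ⟨h6, h7⟩ := hlogs m hm
      exact div_le_div_of_nonneg_left (fT_nonneg T m) (by linarith) h7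
    refine le_trans ?_ h5
    rw [le_div_iff₀ (by linarith)]
    refine le_trans ?_ hlo
    have h6 : 1 ≤ δ * (n * ℓ) := by
      rw [div_le_iff₀ (by positivity)] at g5
      linarith
    have h7 : (1 - 4 * δ) * (n * ℓ + 1) ≤ (1 - 2 * δ) * (n * ℓ) := by
      have h8 : n * ℓ + 1 ≤ (1 + δ) * (n * ℓ) := by linarith
      have h9 : (1 - 4 * δ) * (n * ℓ + 1) ≤ (1 - 4 * δ) * ((1 + δ) * (n * ℓ)) :=
        mul_le_mul_of_nonneg_left h8 (by linarith)
      have h10 : (1 - 4 * δ) * (1 + δ) ≤ 1 - 2 * δ := by nlinarith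
      calc (1 - 4 * δ) * (n * ℓ + 1) ≤ ((1 - 4 * δ) * (1 + δ)) * (n * ℓ) := by linarith
        _ ≤ _ := mul_le_mul_of_nonneg_right h10 hnℓ.le
    calc (1 - 4 * δ) * (K / (n * ℓ)) * (n * ℓ + 1) = ((1 - 4 * δ) * (n * ℓ + 1)) * (K / (n * ℓ)) := by ring
      _ ≤ ((1 - 2 * δ) * (n * ℓ)) * (K / (n * ℓ)) := mul_le_mul_of_nonneg_right h7 (by positivity)
      _ = (1 - 2 * δ) * K := by field_simp
  · have h5 : mss (aT T) (xx b) (hhh κ) n ≤ Sg / (n * ℓ) := by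
      unfold mss
      rw [← hK, hSg, Finset.sum_div]
      apply Finset.sum_le_sum
      intro m hm
      obtain ⟨h6, h7⟩ := hlogs m hm
      exact div_le_div_of_nonneg_left (fT_nonneg T m) hnℓ h6
    refine h5.trans ?_
    rw [← mul_div_assoc]
    exact div_le_div_of_nonneg_right hup hnℓ.le

/-- the mass is asymptotic to `(κ / log b) log n` -/
theorem mass_tendsto (hT : Monotone T)
    (hTl : ∀ θ : ℝ, 0 < θ → ∀ᶠ n : ℕ in atTop, (T n : ℝ) ≤ (Real.log n) ^ θ)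
    {b : ℕ} (hb : 2 ≤ b) {κ : ℝ} (hκ : 0 < κ) {η : ℝ} (hη : 0 < η) :
    ∀ᶠ n : ℕ in atTop, (κ / Real.log b - η) * Real.log n ≤ mss (aT T) (xx b) (hhh κ) n ∧
      mss (aT T) (xx b) (hhh κ) n ≤ (κ / Real.log b + η) * Real.log n := by
  have hbr : (2 : ℝ) ≤ b := by exact_mod_cast hb
  obtain ⟨ℓ, hℓ⟩ : ∃ ℓ, ℓ = Real.log b := ⟨_, rfl⟩
  have hℓ0 : 0 < ℓ := by rw [hℓ]; exact Real.log_pos (by linarith)
  obtain ⟨δ, hδ, hδ1, hδη⟩ : ∃ δ : ℝ, 0 < δ ∧ δ ≤ 1 / 4 ∧ δ * (4 * κ + 2) ≤ η * ℓ := by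
    refine ⟨min (1 / 4) (η * ℓ / (4 * κ + 2)), lt_min (by norm_num) (by positivity), min_le_left _ _, ?_⟩
    have h1 := min_le_right (1 / 4) (η * ℓ / (4 * κ + 2))
    have h2 := mul_le_mul_of_nonneg_right h1 (show 0 ≤ 4 * κ + 2 by linarith)
    rwa [div_mul_cancel₀ _ (by positivity : (4 * κ + 2) ≠ 0)] at h2
  filter_upwards [mass_bounds hT hTl hb hκ hδ hδ1,
    (hhh_asymp hκ).eventually (lt_mem_nhds (show κ - δ < κ by linarith)),
    (hhh_asymp hκ).eventually (gt_mem_nhds (show κ < κ + δ by linarith)),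
    eventually_ge_atTop 2] with n g1 g2 g3 g4
  rw [← hℓ] at g1 ⊢
  have hnr : (2 : ℝ) ≤ n := by exact_mod_cast g4
  have hn0 : (0 : ℝ) < n := by linarith
  have hln : 0 < Real.log n := Real.log_pos (by linarith)
  rw [lt_div_iff₀ (by positivity)] at g2
  rw [div_lt_iff₀ (by positivity)] at g3
  constructor
  · refine le_trans ?_ g1.1
    have h1 : (κ - δ) * Real.log n / ℓ ≤ (hhh κ n : ℝ) / (n * ℓ) := by
      rw [div_le_div_iff₀ hℓ0 (by positivity)]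
      have h2 := mul_le_mul_of_nonneg_right g2.le hℓ0.le
      calc (κ - δ) * Real.log n * (n * ℓ) = (κ - δ) * (n * Real.log n) * ℓ := by ring
        _ ≤ _ := h2
    refine le_trans ?_ (mul_le_mul_of_nonneg_left h1 (show 0 ≤ 1 - 4 * δ by linarith))
    have h3 : (κ / ℓ - η) * Real.log n = ((κ - η * ℓ) * Real.log n) / ℓ := by field_simp
    rw [h3, ← mul_div_assoc]
    apply div_le_div_of_nonneg_right _ hℓ0.le
    have h4 : κ - η * ℓ ≤ (1 - 4 * δ) * (κ - δ) := by nlinarith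
    calc (κ - η * ℓ) * Real.log n ≤ ((1 - 4 * δ) * (κ - δ)) * Real.log n :=
          mul_le_mul_of_nonneg_right h4 hln.le
      _ = _ := by ring
  · refine g1.2.trans ?_
    have h1 : (hhh κ n : ℝ) / (n * ℓ) ≤ (κ + δ) * Real.log n / ℓ := by
      rw [div_le_div_iff₀ (by positivity) hℓ0]
      have h2 := mul_le_mul_of_nonneg_right g3.le hℓ0.le
      calc _ ≤ _ := h2
        _ = (κ + δ) * Real.log n * (n * ℓ) := by ring
    refine (mul_le_mul_of_nonneg_left h1 (show 0 ≤ 1 + 2 * δ by linarith)).trans ?_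
    have h3 : (κ / ℓ + η) * Real.log n = ((κ + η * ℓ) * Real.log n) / ℓ := by field_simp
    rw [h3, ← mul_div_assoc]
    apply div_le_div_of_nonneg_right _ hℓ0.le
    have h4 : (1 + 2 * δ) * (κ + δ) ≤ κ + η * ℓ := by nlinarith
    calc (1 + 2 * δ) * ((κ + δ) * Real.log n) = ((1 + 2 * δ) * (κ + δ)) * Real.log n := by ring
      _ ≤ _ := mul_le_mul_of_nonneg_right h4 hln.le

end Pool.Agent.U215.Pw
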